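import Pool.Agent.HFC.Stmts

/-!
Row ADL of table hfc: the terminal class is closed under quotients.
-/

noncomputable section

namespace Pool.Agent.HFC.H77

open Pool.Agent.PSS Pool.Agent.PST Pool.Agent.PST.GU

theorem card_le {V V' : Type} [Group V] [Group V'] {E : Subgroup (MulAut V)}
    {E' : Subgroup (MulAut V')} {π : V →* V'} (h : Qr E E' π) (hf : Finite E) :
    Finite E' ∧ Nat.card E' ≤ Nat.card E := by
  have h1 : ∀ a' : E', ∃ a : E, ∀ v, π ((a : MulAut V) v) = (a' : MulAut V') (π v) := by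
    intro a'
    obtain ⟨a, ha, h2⟩ := h.lif a' a'.2
    exact ⟨⟨a, ha⟩, h2⟩
  choose f hf2 using h1
  have hinj : Function.Injective f := by
    intro a' b' hab
    apply Subtype.ext
    apply MulEquiv.ext
    intro x
    obtain ⟨v, rfl⟩ := h.sur x
    rw [← hf2 a' v, ← hf2 b' v, hab]
  exact ⟨Finite.of_injective f hinj, Nat.card_le_card_of_injective f hinj⟩

/-- ADL. -/
theorem adl : AdlStmt := by
  intro hadr ℓ hℓ
  refine ⟨?_, ?_⟩
  · intro V V' _ _ E E' π hQ h
    rcases h with h | ⟨h5, hf, hc⟩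
    · exact Or.inl ((hadr ℓ hℓ).iso V V' E E' π hQ h)
    · obtain ⟨h1, h2⟩ := card_le hQ hf
      exact Or.inr ⟨h5, h1, by omega⟩
  · intro V V' _ _ _ _ E E' π hV hE hab hQ h hne
    rcases h with h | ⟨h5, hf, hc⟩
    · exact Or.inl ((hadr ℓ hℓ).quo V V' E E' π hV hE hab hQ h hne)
    · obtain ⟨h1, h2⟩ := card_le hQ hf
      exact Or.inr ⟨h5, h1, by omega⟩

end Pool.Agent.HFC.H77
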